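import Pool.Agent.Helper50.D71.Geo
import Pool.Agent.Helper96.D71.NonRat

/-!
# MP_d71e86_ag : block F3, non-rationality of curves in a model
-/

open AlgebraicGeometry CategoryTheory MvPolynomial TopologicalSpace

universe u

namespace Helper50.D71

section

variable {k : Type u} [Field k] {K : Type u} [Field K] [Algebra k K]
variable {ι : Type} {A : ι → Subalgebra k K} {X : Scheme.{u}} {f : X ⟶ Spec (.of k)}
  {c : ∀ i, Spec (.of (A i)) ⟶ X}

theorem IsModel.curve_not_rational [IsAlgClosed k] [CharZero k] (hM : IsModel A X f c)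
    (i : ι) (p : PrimeSpectrum (A i)) {C : Scheme.{u}} (j : C ⟶ X) [IsClosedImmersion j]
    [IsIntegral C] (hj : Set.range j = closure {c i p}) (s y : A i)
    (h : y ^ 3 - (s ^ 2 + 1) ∈ p.asIdeal) (hs : ∀ r : k, s - algebraMap k (A i) r ∉ p.asIdeal) :
    ¬ Scheme.IsRationalOver (j ≫ f) := by
  have := hM.isOpenImmersion i
  let W : X.Opens := (c i) ''ᵁ ⊤
  let U : C.Opens := j ⁻¹ᵁ W
  let θ : A i →+* Γ(C, U) :=
    (j.app W).hom.comp ((((c i).appIso ⊤).inv).hom.comp
      (Scheme.ΓSpecIso (.of (A i))).inv.hom)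
  -- the generic point
  let ξ : C := genericPoint C
  have hξ : j ξ = c i p := by
    have h1 : closure {j ξ} = closure {c i p} := by
      rw [← hj, ← Set.image_singleton, ← Set.image_univ,
        j.isClosedEmbedding.isClosedMap.closure_image_eq_of_continuous j.continuous]
      rw [genericPoint_closure]
    exact (Specializes.antisymm (specializes_iff_closure_subset.mpr h1.ge)
      (specializes_iff_closure_subset.mpr h1.le)).eq
  have hbas : ∀ a : A i, C.basicOpen (θ a) = j ⁻¹ᵁ ((c i) ''ᵁ (PrimeSpectrum.basicOpen a)) := by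
    intro a
    change C.basicOpen (j.app W _) = _
    rw [← Scheme.preimage_basicOpen]
    congr 1
    change X.basicOpen (((c i).appIso ⊤).inv _) = _
    rw [← Scheme.image_basicOpen]
    congr 1
    exact basicOpen_eq_of_affine (R := .of (A i)) a
  have hmem : ∀ a : A i, ξ ∈ C.basicOpen (θ a) ↔ a ∉ p.asIdeal := by
    intro a
    rw [hbas]
    change j ξ ∈ ((c i) ''ᵁ (PrimeSpectrum.basicOpen a)) ↔ _
    rw [hξ]
    constructor
    · rintro ⟨q, hq, hqp⟩
      have : q = p := (c i).isOpenEmbedding.injective hqp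
      rw [this] at hq
      exact hq
    · intro hp
      exact ⟨p, hp, rfl⟩
  have hzero : ∀ a : A i, θ a = 0 ↔ a ∈ p.asIdeal := by
    intro a
    constructor
    · intro h0
      by_contra hp
      have := (hmem a).mpr hp
      rw [h0, Scheme.basicOpen_zero] at this
      exact this
    · intro hp
      rw [← basicOpen_eq_bot_iff]
      by_contra hne
      have hne' : ((C.basicOpen (θ a) : C.Opens) : Set C).Nonempty := by
        rw [Set.nonempty_iff_ne_empty]
        intro h0
        exact hne (Opens.ext h0)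
      exact (hmem a).mp ((genericPoint_spec C).mem_open_set_iff (C.basicOpen (θ a)).2 |>.mpr
        (by simpa using hne')) hp
  have hUne : (U : Set C).Nonempty := ⟨ξ, by
    change j ξ ∈ ((c i) ''ᵁ ⊤)
    rw [hξ]
    exact ⟨p, trivial, rfl⟩⟩
  have hconst : ∀ r : k, θ (algebraMap k (A i) r) = const (j ≫ f) U r := by
    intro r
    have h1 := Scheme.ΓSpecIso_inv_naturality (CommRingCat.ofHom (algebraMap k (A i)))
    have hle : W ≤ f ⁻¹ᵁ ⊤ := le_top
    have hle2 : (⊤ : (Spec (.of (A i))).Opens) ≤ (c i) ⁻¹ᵁ W :=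
      (Scheme.Hom.preimage_image_eq (c i) ⊤).ge
    have h2 : (Spec.map (CommRingCat.ofHom (algebraMap k (A i)))).appTop =
        f.appLE ⊤ W hle ≫ ((c i).appIso ⊤).hom := by
      rw [Scheme.Hom.appIso_hom', ← hM.over_base i]
      exact (Scheme.Hom.appLE_eq_app _).symm.trans
        (Scheme.Hom.appLE_comp_appLE (c i) f ⊤ W ⊤ hle hle2).symm
    have h3 : CommRingCat.ofHom (algebraMap k (A i)) ≫ (Scheme.ΓSpecIso (.of (A i))).inv ≫
        ((c i).appIso ⊤).inv ≫ j.app W =
        (Scheme.ΓSpecIso (.of k)).inv ≫ (j ≫ f).appLE ⊤ U le_top := by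
      rw [reassoc_of% h1, h2]
      simp only [Category.assoc, Iso.hom_inv_id_assoc]
      congr 1
      rw [Scheme.Hom.app_eq_appLE]
      exact Scheme.Hom.appLE_comp_appLE j f ⊤ W (j ⁻¹ᵁ W) hle le_rfl
    have h4 := congrArg (fun φ => φ.hom r) h3
    exact h4
  refine not_isRationalOver (j ≫ f) U hUne (θ s) (θ y) ?_ ?_
  · have h1 := (hzero _).mpr h
    rw [map_sub, sub_eq_zero, map_add, map_pow, map_pow, map_one] at h1
    exact h1
  · intro r h0
    apply hs r
    rw [← hzero, map_sub, h0, hconst, sub_self]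

end

end Helper50.D71
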