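import Pool.Agent.Helper50.D71.Geo

/-!
# MP_d71e86_ag : elementary properties of models (block G3)
-/

open AlgebraicGeometry CategoryTheory TopologicalSpace

universe u

namespace Helper50.D71

section

variable {k : Type u} [Field k] {K : Type u} [Field K] [Algebra k K]

variable {ι : Type} {A : ι → Subalgebra k K} {X : Scheme.{u}} {f : X ⟶ Spec (.of k)}
  {c : ∀ i, Spec (.of (A i)) ⟶ X}

/-- the generic point of `Spec B`. -/
def genPt (B : Subalgebra k K) : Spec (.of B) := (⊥ : PrimeSpectrum B)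

lemma specIncl_genPt {B C : Subalgebra k K} (h : B ≤ C) :
    specIncl h (genPt C) = genPt B := by
  apply PrimeSpectrum.ext
  ext x
  change Subalgebra.inclusion h x ∈ (⊥ : Ideal C) ↔ x ∈ (⊥ : Ideal B)
  rw [Ideal.mem_bot, Ideal.mem_bot]
  exact map_eq_zero_iff _ (Subalgebra.inclusion_injective h)

lemma IsModel.gen_eq (hM : IsModel A X f c) (i j : ι) :
    c i (genPt (A i)) = c j (genPt (A j)) := by
  have h : (specIncl (le_sup_left : A i ≤ A i ⊔ A j) ≫ c i) (genPt (A i ⊔ A j)) =
    (specIncl (le_sup_right : A j ≤ A i ⊔ A j) ≫ c j) (genPt (A i ⊔ A j)) := by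
    rw [hM.compat i j]
  rw [Scheme.Hom.comp_apply, Scheme.Hom.comp_apply, specIncl_genPt, specIncl_genPt] at h
  exact h

lemma IsModel.gen_mem (hM : IsModel A X f c) (i : ι) (U : Set X) (hU : IsOpen U)
    (hne : U.Nonempty) : c i (genPt (A i)) ∈ U := by
  obtain ⟨x, hx⟩ := hne
  obtain ⟨j, p, rfl⟩ := hM.cover x
  rw [hM.gen_eq i j]
  have hp : (genPt (A j)) ⤳ p :=
    (PrimeSpectrum.le_iff_specializes (⊥ : PrimeSpectrum (A j)) p).mp bot_le
  have := hp.map (c j).continuous
  exact this.mem_open hU hx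

theorem IsModel.isIntegral [Nonempty ι] (hM : IsModel A X f c) : IsIntegral X := by
  have hred : ∀ x : X, _root_.IsReduced (X.presheaf.stalk x) := by
    intro x
    obtain ⟨i, p, rfl⟩ := hM.cover x
    have := hM.isOpenImmersion i
    have h1 : IsIso ((c i).stalkMap p) := inferInstance
    exact isReduced_of_injective (asIso ((c i).stalkMap p)).commRingCatIsoToRingEquiv
      (RingEquiv.injective _)
  have : IsReduced X := isReduced_of_isReduced_stalk X
  obtain ⟨i⟩ := ‹Nonempty ι›
  have hirr : IrreducibleSpace X := by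
    have h1 : closure {c i (genPt (A i))} = Set.univ := by
      rw [Set.eq_univ_iff_forall]
      intro x
      rw [mem_closure_iff]
      intro U hU hx
      exact ⟨_, hM.gen_mem i U hU ⟨x, hx⟩, rfl⟩
    have h2 : IsIrreducible (Set.univ : Set X) := by
      rw [← h1]
      exact isIrreducible_singleton.closure
    have : PreirreducibleSpace X := ⟨h2.isPreirreducible⟩
    exact ⟨⟨c i (genPt (A i))⟩⟩
  exact isIntegral_of_irreducibleSpace_of_isReduced X

theorem IsModel.smooth (hM : IsModel A X f c) (h : ∀ i, Algebra.Smooth k (A i)) : Smooth f := by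
  have hcov : ∀ i, IsOpenImmersion (c i) := hM.isOpenImmersion
  let 𝒰 : X.OpenCover := 
    .mkOfCovers ι (fun i => Spec (.of (A i))) c hM.cover hcov
  have : ∀ i, IsAffine (𝒰.X i) := fun i => inferInstanceAs (IsAffine (Spec (.of (A i))))
  refine HasRingHomProperty.of_source_openCover 𝒰 ?_
  intro i
  have h1 : Smooth (Spec.map (CommRingCat.ofHom (algebraMap k (A i)))) := by
    rw [HasRingHomProperty.Spec_iff (P := @Smooth)]
    exact (RingHom.smooth_algebraMap (R := k) (S := A i)).mpr (h i)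
  have h2 : 𝒰.f i ≫ f = Spec.map (CommRingCat.ofHom (algebraMap k (A i))) := hM.over_base i
  rw [h2]
  exact HasRingHomProperty.appTop (P := @Smooth) _ h1

theorem IsModel.noetherianSpace [Finite ι] (hM : IsModel A X f c) (h : ∀ i, (A i).FG) :
    TopologicalSpace.NoetherianSpace X := by
  rw [← noetherian_univ_iff]
  have huniv : (Set.univ : Set X) = ⋃ i, Set.range (c i) := by
    ext x; simpa using hM.cover x
  rw [huniv]
  have : ∀ i, NoetherianSpace (Set.range (c i)) := by
    intro i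
    have : IsNoetherianRing (A i) := by
      have := (A i).fg_iff_finiteType.mp (h i)
      exact Algebra.FiniteType.isNoetherianRing k (A i)
    have : NoetherianSpace (PrimeSpectrum (A i)) := inferInstance
    exact NoetherianSpace.range (α := PrimeSpectrum (A i)) (c i) (c i).continuous
  exact NoetherianSpace.iUnion _

theorem IsModel.dim_eq (hM : IsModel A X f c) (n : ℕ) (h : ∀ i, ringKrullDim (A i) ≤ n)
    (h' : ∃ i, (n : WithBot ℕ∞) ≤ ringKrullDim (A i)) : topologicalKrullDim X = n := by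
  apply le_antisymm
  · rw [topologicalKrullDim, Order.krullDim_eq_iSup_coheight, iSup_le_iff]
    intro Z
    obtain ⟨z, hz⟩ := Z.isIrreducible.nonempty
    obtain ⟨i, p, rfl⟩ := hM.cover z
    have := hM.isOpenImmersion i
    have hemb := (c i).isOpenEmbedding
    let e := IrreducibleCloseds.orderIsoOfIsOpenEmbedding (c i) hemb
    have h1 := hemb.coheight_map (e.symm ⟨Z, ⟨p, hz⟩⟩)
    have h2 : IrreducibleCloseds.map (c i) hemb.continuous (e.symm ⟨Z, ⟨p, hz⟩⟩) = Z :=
      congrArg Subtype.val (e.apply_symm_apply ⟨Z, ⟨p, hz⟩⟩)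
    rw [h2] at h1
    rw [h1]
    refine (Order.coheight_le_krullDim _).trans ?_
    change topologicalKrullDim (PrimeSpectrum (A i)) ≤ n
    rw [PrimeSpectrum.topologicalKrullDim_eq_ringKrullDim]
    exact h i
  · obtain ⟨i, hi⟩ := h'
    rw [← PrimeSpectrum.topologicalKrullDim_eq_ringKrullDim] at hi
    have := hM.isOpenImmersion i
    exact hi.trans ((c i).isOpenEmbedding.isInducing.topologicalKrullDim_le)

/-- the `K`-valued point of `X` through the chart `i`. -/
noncomputable def etaMor (B : Subalgebra k K) : Spec (.of K) ⟶ Spec (.of B) :=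
  Spec.map (CommRingCat.ofHom B.val.toRingHom)

lemma etaMor_specIncl {B C : Subalgebra k K} (h : B ≤ C) :
    etaMor C ≫ specIncl h = etaMor B := by
  rw [etaMor, specIncl, ← Spec.map_comp]
  rfl

lemma IsModel.eta_eq (hM : IsModel A X f c) (i j : ι) :
    etaMor (A i) ≫ c i = etaMor (A j) ≫ c j := by
  rw [← etaMor_specIncl (le_sup_left : A i ≤ A i ⊔ A j),
    ← etaMor_specIncl (le_sup_right : A j ≤ A i ⊔ A j), Category.assoc, Category.assoc,
    hM.compat i j]

theorem IsModel.exists_rational [Nonempty ι] (hM : IsModel A X f c) (W : X.Opens)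
    (hW : (W : Set X).Nonempty) (g : Γ(X, W)) :
    ∃ φ : K, ∀ (i : ι) (p : PrimeSpectrum (A i)), c i p ∈ W →
      ∃ a b : A i, b ∉ p.asIdeal ∧ φ * b = a ∧ (a ∈ p.asIdeal ↔ c i p ∉ X.basicOpen g) := by
  obtain ⟨i₀⟩ := ‹Nonempty ι›
  set e : Spec (.of K) ⟶ X := etaMor (A i₀) ≫ c i₀ with he
  have heta : ∀ x : Spec (.of K), etaMor (A i₀) x = genPt (A i₀) := by
    intro x
    apply PrimeSpectrum.ext
    have hx : x.asIdeal = ⊥ := by
      have := (Subsingleton.elim x (⊥ : PrimeSpectrum K))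
      rw [this]; rfl
    ext t
    change (A i₀).val t ∈ x.asIdeal ↔ t ∈ (⊥ : Ideal (A i₀))
    rw [hx, Ideal.mem_bot, Ideal.mem_bot]
    exact map_eq_zero_iff _ Subtype.val_injective
  have heW : (⊤ : (Spec (.of K)).Opens) ≤ e ⁻¹ᵁ W := by
    intro x _
    change e x ∈ W
    rw [he, Scheme.Hom.comp_apply, heta]
    exact hM.gen_mem i₀ W W.isOpen hW
  refine ⟨(Scheme.ΓSpecIso (.of K)).hom (e.appLE W ⊤ heW g), ?_⟩
  intro i p hp
  -- the local ring at `p`
  let L := Localization.AtPrime p.asIdeal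
  let r : Spec (.of L) ⟶ Spec (.of (A i)) := Spec.map (CommRingCat.ofHom (algebraMap (A i) L))
  let m : Spec (.of L) ⟶ X := r ≫ c i
  have hmc : m (IsLocalRing.closedPoint L) = c i p := by
    change c i (r (IsLocalRing.closedPoint L)) = c i p
    congr 1
    apply PrimeSpectrum.ext
    exact Localization.AtPrime.under_maximalIdeal
  have hmW : (⊤ : (Spec (.of L)).Opens) ≤ m ⁻¹ᵁ W := by
    intro x _
    change m x ∈ W
    have h1 : x ⤳ (IsLocalRing.closedPoint L : PrimeSpectrum L) := IsLocalRing.specializes_closedPoint x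
    exact (h1.map m.continuous).mem_open W.isOpen (by rw [hmc]; exact hp)
  let G : L := (Scheme.ΓSpecIso (.of L)).hom (m.appLE W ⊤ hmW g)
  -- the map to `K`
  have hunit : ∀ y : p.asIdeal.primeCompl, IsUnit ((A i).val.toRingHom y) := by
    intro y
    rw [isUnit_iff_ne_zero]
    intro h0
    apply y.2
    have : (y : A i) = 0 := by
      apply Subtype.val_injective
      exact h0
    rw [this]
    exact zero_mem _
  let σ : L →+* K := IsLocalization.lift (M := p.asIdeal.primeCompl) hunit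
  have hσ : σ.comp (algebraMap (A i) L) = (A i).val.toRingHom := IsLocalization.lift_comp hunit
  have hem : e = Spec.map (CommRingCat.ofHom σ) ≫ m := by
    rw [he, hM.eta_eq i₀ i]
    change _ = Spec.map (CommRingCat.ofHom σ) ≫ r ≫ c i
    rw [← Category.assoc]
    congr 1
    rw [etaMor, ← hσ]
    change _ = _ ≫ Spec.map _
    rw [← Spec.map_comp]
    rfl
  have key : ∀ (e' : Spec (.of K) ⟶ X) (h' : (⊤ : (Spec (.of K)).Opens) ≤ e' ⁻¹ᵁ W),
      e' = Spec.map (CommRingCat.ofHom σ) ≫ m →
      (Scheme.ΓSpecIso (.of K)).hom (e'.appLE W ⊤ h' g) = σ G := by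
    rintro _ h' rfl
    have h1 : m.appLE W ⊤ hmW ≫ (Spec.map (CommRingCat.ofHom σ)).appTop =
        (Spec.map (CommRingCat.ofHom σ) ≫ m).appLE W ⊤ h' := by
      rw [← Scheme.Hom.appLE_comp_appLE (Spec.map (CommRingCat.ofHom σ)) m W ⊤ ⊤ hmW le_top]
      congr 1
    rw [← h1]
    have h2 := congrArg (fun q => q.hom (m.appLE W ⊤ hmW g))
      (Scheme.ΓSpecIso_naturality (CommRingCat.ofHom σ))
    exact h2
  have hφ : (Scheme.ΓSpecIso (.of K)).hom (e.appLE W ⊤ heW g) = σ G := key e heW hem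
  obtain ⟨⟨a, b⟩, hab⟩ := IsLocalization.surj (M := p.asIdeal.primeCompl) G
  refine ⟨a, b, b.2, ?_, ?_⟩
  · rw [hφ]
    have := congrArg σ hab
    rw [map_mul] at this
    have h1 : ∀ t : A i, σ (algebraMap (A i) L t) = (t : K) := fun t => congrArg (fun (q : A i →+* K) => q t) hσ
    rw [h1, h1] at this
    exact this
  · have h2 : a ∈ p.asIdeal ↔ ¬ IsUnit G := by
      have h3 : IsUnit (algebraMap (A i) L a) ↔ a ∉ p.asIdeal :=
        IsLocalization.AtPrime.isUnit_to_map_iff L p.asIdeal a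
      have h4 : IsUnit (algebraMap (A i) L a) ↔ IsUnit G := by
        rw [← hab]
        have h5 : IsUnit (algebraMap (A i) L b) := IsLocalization.map_units L b
        constructor
        · intro h6; exact isUnit_of_mul_isUnit_left h6
        · intro h6; exact h6.mul h5
      rw [← h4, h3, not_not]
    have h7 : c i p ∈ X.basicOpen g ↔ IsUnit G := by
      rw [← hmc]
      have h8 : (m ⁻¹ᵁ X.basicOpen g) = (Spec (.of L)).basicOpen (m.appLE W ⊤ hmW g) := by
        rw [Scheme.basicOpen_appLE, top_inf_eq]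
      change (IsLocalRing.closedPoint L : Spec (.of L)) ∈ (m ⁻¹ᵁ X.basicOpen g) ↔ _
      rw [h8, basicOpen_eq_of_affine']
      change G ∉ IsLocalRing.maximalIdeal L ↔ _
      simp
    rw [h2, h7]

theorem IsModel.mem_range (hM : IsModel A X f c) {i j : ι} (_hG : Good (A i) (A j))
    (p : PrimeSpectrum (A i))
    (h : ∀ x ∈ A j, ∃ a b : A i, b ∉ p.asIdeal ∧ x * b = a) :
    c i p ∈ Set.range (c j) := by
  have h1 : ∀ x ∈ A i ⊔ A j, ∃ a b : A i, b ∉ p.asIdeal ∧ x * b = a := by
    have hle : A i ⊔ A j ≤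
      { carrier := {x | ∃ a b : A i, b ∉ p.asIdeal ∧ x * b = a}
        mul_mem' := by
          rintro x y ⟨a, b, hb, hab⟩ ⟨a', b', hb', hab'⟩
          refine ⟨a * a', b * b', fun h0 => (p.2.mem_or_mem h0).elim hb hb', ?_⟩
          push_cast
          rw [← hab, ← hab']; ring
        add_mem' := by
          rintro x y ⟨a, b, hb, hab⟩ ⟨a', b', hb', hab'⟩
          refine ⟨a * b' + a' * b, b * b', fun h0 => (p.2.mem_or_mem h0).elim hb hb', ?_⟩
          push_cast
          rw [← hab, ← hab']; ring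
        algebraMap_mem' := fun r => ⟨algebraMap k (A i) r, 1, fun h0 => p.2.ne_top
          ((Ideal.eq_top_iff_one _).mpr h0), by simp⟩ :
        Subalgebra k K } := by
      refine sup_le (fun x hx => ⟨⟨x, hx⟩, 1, fun h0 => p.2.ne_top
          ((Ideal.eq_top_iff_one _).mpr h0), by simp⟩) h
    exact hle
  let q : Ideal ↥(A i ⊔ A j) :=
    { carrier := {x | ∃ a b : A i, a ∈ p.asIdeal ∧ b ∉ p.asIdeal ∧ (x : K) * b = a}
      add_mem' := by
        rintro x y ⟨a, b, ha, hb, hab⟩ ⟨a', b', ha', hb', hab'⟩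
        refine ⟨a * b' + a' * b, b * b', add_mem (Ideal.mul_mem_right _ _ ha)
          (Ideal.mul_mem_right _ _ ha'), fun h0 => (p.2.mem_or_mem h0).elim hb hb', ?_⟩
        push_cast
        rw [← hab, ← hab']; ring
      zero_mem' := ⟨0, 1, zero_mem _, fun h0 => p.2.ne_top
          ((Ideal.eq_top_iff_one _).mpr h0), by simp⟩
      smul_mem' := by
        rintro y x ⟨a, b, ha, hb, hab⟩
        obtain ⟨a', b', hb', hab'⟩ := h1 y y.2
        refine ⟨a' * a, b' * b, Ideal.mul_mem_left _ _ ha,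
          fun h0 => (p.2.mem_or_mem h0).elim hb' hb, ?_⟩
        simp only [smul_eq_mul]
        push_cast
        rw [← hab, ← hab']; ring }
  have hq : ∀ x : A i, Subalgebra.inclusion (le_sup_left : A i ≤ A i ⊔ A j) x ∈ q ↔
      x ∈ p.asIdeal := by
    intro x
    constructor
    · rintro ⟨a, b, ha, hb, hab⟩
      have : x * b = a := by
        apply Subtype.val_injective
        push_cast
        exact hab
      rw [← this] at ha
      exact (p.2.mem_or_mem ha).resolve_right hb
    · intro hx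
      exact ⟨x, 1, hx, fun h0 => p.2.ne_top ((Ideal.eq_top_iff_one _).mpr h0), by simp⟩
  have hqp : q.IsPrime := by
    constructor
    · intro htop
      have h2 : (1 : ↥(A i ⊔ A j)) ∈ q := by rw [htop]; trivial
      have h3 := (hq 1).mp (by simpa using h2)
      exact p.2.ne_top ((Ideal.eq_top_iff_one _).mpr h3)
    · rintro x y ⟨a, b, ha, hb, hab⟩
      obtain ⟨a₁, b₁, hb₁, hab₁⟩ := h1 x x.2
      obtain ⟨a₂, b₂, hb₂, hab₂⟩ := h1 y y.2
      have h2 : a₁ * a₂ * b = a * b₁ * b₂ := by
        apply Subtype.val_injective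
        push_cast at hab ⊢
        rw [← hab, ← hab₁, ← hab₂]; ring
      have h3 : a₁ * a₂ * b ∈ p.asIdeal := by
        rw [h2]
        exact Ideal.mul_mem_right _ _ (Ideal.mul_mem_right _ _ ha)
      rcases p.2.mem_or_mem ((p.2.mem_or_mem h3).resolve_right hb) with h4 | h4
      · exact Or.inl ⟨a₁, b₁, h4, hb₁, hab₁⟩
      · exact Or.inr ⟨a₂, b₂, h4, hb₂, hab₂⟩
  let q' : Spec (.of ↥(A i ⊔ A j)) := (⟨q, hqp⟩ : PrimeSpectrum ↥(A i ⊔ A j))
  have hq' : specIncl (le_sup_left : A i ≤ A i ⊔ A j) q' = p := by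
    apply PrimeSpectrum.ext
    ext x
    exact hq x
  refine ⟨specIncl (le_sup_right : A j ≤ A i ⊔ A j) q', ?_⟩
  rw [← hq', ← Scheme.Hom.comp_apply, ← Scheme.Hom.comp_apply, hM.compat i j]


end

end Helper50.D71
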