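import Pool.Agent.Helper50.D71.NZ

/-!
# MP_d71e86_ag : block P, every valuation ring of `k(s,y,v)/k` contains one of the ten charts
-/

open MvPolynomial

universe u

namespace Helper50.D71

section

variable {K : Type u} [Field K] (V : ValuationSubring K)

lemma P_lt_of_inv_notMem {x : K} (h : x⁻¹ ∉ V) : V.valuation x < 1 := by
  by_contra h1
  push Not at h1
  apply h
  rw [← V.valuation_le_one_iff, map_inv₀]
  exact inv_le_one_of_one_le₀ h1

lemma P_lt_mul {x t : K} (h : V.valuation x < 1) (ht : t ∈ V) : V.valuation (x * t) < 1 := by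
  rw [← V.valuation_le_one_iff] at ht
  rw [map_mul]
  exact mul_lt_one_of_lt_of_le h ht

lemma P_lt_mem {x : K} (h : V.valuation x < 1) : x ∈ V := V.valuation_le_one_iff x |>.mp h.le

lemma P_eq_inv {x : K} (h : V.valuation x = 1) : x⁻¹ ∈ V := by
  rw [← V.valuation_le_one_iff, map_inv₀, h, inv_one]

lemma P_div {a b : K} (_ha : a ≠ 0) (_hb : b ≠ 0) (h : a / b ∉ V) : b / a ∈ V := by
  have := (V.mem_or_inv_mem (a / b)).resolve_left h
  rwa [inv_div] at this

lemma P_unit_one_sub {x : K} (h : V.valuation x < 1) : V.valuation (1 - x) = 1 :=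
  V.valuation.map_one_sub_of_lt h

/-- the end of the case analysis in the three charts `A`, `B`, `C`. -/
lemma P_end (s y f F z1 P0 : K) (s0 : s ≠ 0) (_y0 : y ≠ 0) (f0 : f ≠ 0)
    (z10 : z1 ≠ 0) (P00 : P0 ≠ 0) (hyp : y * P0 / (f * z1) ∈ V) (hp : P0 / (f * z1) ∈ V)
    (hyqp : y * s * z1 / P0 ∈ V) (hqp : s * z1 / P0 ∈ V) (hFh : f / F ∈ V) :
    (y * P0 / (f * z1) ∈ V ∧ P0 / (f * z1) ∈ V ∧ s * f * z1 ^ 2 / P0 ^ 2 ∈ V ∧ f / F ∈ V) ∨
    (y * s * z1 / P0 ∈ V ∧ s * z1 / P0 ∈ V ∧ P0 ^ 2 / (s * f * z1 ^ 2) ∈ V ∧ f / F ∈ V) := by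
  by_cases h : P0 ^ 2 / (s * f * z1 ^ 2) ∈ V
  · right; exact ⟨hyqp, hqp, h, hFh⟩
  · left; exact ⟨hyp, hp, P_div V (by positivity) (by positivity) h, hFh⟩

/-- the case analysis -/
lemma P_core (s y v f F z1 z0 P0 dd : K) (hf : f = y ^ 3 - 1) (hF : F = f - s ^ 2)
    (hz1 : z1 = -(s ^ 2 * v + F)) (hz0 : z0 = -(s * z1) - y * v) (hP0 : P0 = v + y ^ 2 * z0)
    (hdd : dd = s ^ 3 - y) (s0 : s ≠ 0) (y0 : y ≠ 0) (v0 : v ≠ 0) (f0 : f ≠ 0) (F0 : F ≠ 0)
    (z10 : z1 ≠ 0) (z00 : z0 ≠ 0) (P00 : P0 ≠ 0) (_dd0 : dd ≠ 0) :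
    (y ∈ V ∧ s ∈ V ∧ f / s ∈ V ∧ v / s ∈ V) ∨
    (y ∈ V ∧ v ∈ V ∧ s / v ∈ V ∧ f / v ∈ V) ∨
    (s ∈ V ∧ y ∈ V ∧ 1 / v ∈ V) ∨
    (1 / s ∈ V ∧ y / s ∈ V ∧ z0 / s ∈ V ∧ s ^ 3 / dd ∈ V) ∨
    (1 / s ∈ V ∧ y / s ∈ V ∧ s / z0 ∈ V ∧ s ^ 3 / dd ∈ V) ∨
    (1 / y ∈ V ∧ s / y ∈ V ∧ z1 / z0 ∈ V ∧ y ^ 3 / F ∈ V) ∨
    (y * P0 / (f * z1) ∈ V ∧ P0 / (f * z1) ∈ V ∧ s * f * z1 ^ 2 / P0 ^ 2 ∈ V ∧ f / F ∈ V) ∨
    (y * s * z1 / P0 ∈ V ∧ s * z1 / P0 ∈ V ∧ P0 ^ 2 / (s * f * z1 ^ 2) ∈ V ∧ f / F ∈ V) ∨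
    (y ∈ V ∧ P0 / (s * z1) ∈ V ∧ s / f ∈ V ∧ f / F ∈ V) ∨
    (1 / y ∈ V ∧ P0 / (y * s * z1) ∈ V ∧ y ^ 2 * s / f ∈ V ∧ f / F ∈ V) := by
  -- the case where `1/y` and `s/y` are in the maximal ideal
  have caseY : V.valuation (1 / y) < 1 → V.valuation (s / y) < 1 →
      (1 / y ∈ V ∧ s / y ∈ V ∧ z1 / z0 ∈ V ∧ y ^ 3 / F ∈ V) ∨
      (y * P0 / (f * z1) ∈ V ∧ P0 / (f * z1) ∈ V ∧ s * f * z1 ^ 2 / P0 ^ 2 ∈ V ∧ f / F ∈ V) ∨
      (y * s * z1 / P0 ∈ V ∧ s * z1 / P0 ∈ V ∧ P0 ^ 2 / (s * f * z1 ^ 2) ∈ V ∧ f / F ∈ V) ∨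
      (y ∈ V ∧ P0 / (s * z1) ∈ V ∧ s / f ∈ V ∧ f / F ∈ V) ∨
      (1 / y ∈ V ∧ P0 / (y * s * z1) ∈ V ∧ y ^ 2 * s / f ∈ V ∧ f / F ∈ V) := by
    intro hX hY
    have hXV := P_lt_mem V hX
    have hYV := P_lt_mem V hY
    have e1 : F / y ^ 3 = 1 - (1 / y) * ((1 / y) ^ 2 + (s / y) ^ 2) := by
      rw [hF, hf]; field_simp; ring
    have e2 : f / y ^ 3 = 1 - (1 / y) * (1 / y) ^ 2 := by
      rw [hf]; field_simp
    have u1 : V.valuation (F / y ^ 3) = 1 := by
      rw [e1]
      exact P_unit_one_sub V (P_lt_mul V hX (add_mem (pow_mem hXV 2) (pow_mem hYV 2)))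
    have u2 : V.valuation (f / y ^ 3) = 1 := by
      rw [e2]
      exact P_unit_one_sub V (P_lt_mul V hX (pow_mem hXV 2))
    have h1 : y ^ 3 / F ∈ V := by
      have := P_eq_inv V u1
      rwa [inv_div] at this
    have h2 : y ^ 3 / f ∈ V := by
      have := P_eq_inv V u2
      rwa [inv_div] at this
    have h3 : f / F ∈ V := by
      have e3 : f / F = (f / y ^ 3) * (y ^ 3 / F) := by field_simp
      rw [e3]
      refine mul_mem ?_ h1
      rw [e2]
      exact sub_mem (one_mem _) (mul_mem hXV (pow_mem hXV 2))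
    by_cases hz : z1 / z0 ∈ V
    · left; exact ⟨hXV, hYV, hz, h1⟩
    right
    have ha : z0 / z1 ∈ V := P_div V z10 z00 hz
    have hq2 : y ^ 2 * s / f ∈ V := by
      have e3 : y ^ 2 * s / f = (s / y) * (y ^ 3 / f) := by field_simp
      rw [e3]
      exact mul_mem hYV h2
    have hp2 : y * P0 / (f * z1) ∈ V := by
      have e3 : y * P0 / (f * z1) = z0 / z1 - (1 / y) ^ 2 * (y ^ 2 * s / f) := by
        field_simp
        rw [hP0, hz0, hf]
        ring
      rw [e3]
      exact sub_mem ha (mul_mem (pow_mem hXV 2) hq2)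
    by_cases hD : P0 / (y * s * z1) ∈ V
    · right; right; right
      exact ⟨hXV, hD, hq2, h3⟩
    have h4 : y * s * z1 / P0 ∈ V := P_div V P00 (by positivity) hD
    have h5 : s * z1 / P0 ∈ V := by
      have e3 : s * z1 / P0 = (1 / y) * (y * s * z1 / P0) := by field_simp
      rw [e3]; exact mul_mem hXV h4
    have h6 : P0 / (f * z1) ∈ V := by
      have e3 : P0 / (f * z1) = (1 / y) * (y * P0 / (f * z1)) := by field_simp
      rw [e3]; exact mul_mem hXV hp2
    rcases P_end V s y f F z1 P0 s0 y0 f0 z10 P00 hp2 h6 h4 h5 h3 with h | h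
    · left; exact h
    · right; left; exact h
  by_cases hs : s ∈ V
  · by_cases hy : y ∈ V
    · by_cases hv : v⁻¹ ∈ V
      · right; right; left
        exact ⟨hs, hy, by rwa [one_div]⟩
      have hv' : V.valuation v < 1 := P_lt_of_inv_notMem V hv
      have hvV : v ∈ V := P_lt_mem V hv'
      by_cases h1 : f / s ∈ V ∧ v / s ∈ V
      · left; exact ⟨hy, hs, h1.1, h1.2⟩
      by_cases h2 : s / v ∈ V ∧ f / v ∈ V
      · right; left; exact ⟨hy, hvV, h2.1, h2.2⟩
      have h3 : s / f ∈ V ∧ v / f ∈ V := by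
        by_cases h4 : f / s ∈ V
        · have h5 : v / s ∉ V := fun h => h1 ⟨h4, h⟩
          have h6 : s / v ∈ V := P_div V v0 s0 h5
          exfalso
          apply h2
          refine ⟨h6, ?_⟩
          have e3 : f / v = (f / s) * (s / v) := by field_simp
          rw [e3]; exact mul_mem h4 h6
        · have h5 : s / f ∈ V := P_div V f0 s0 h4
          refine ⟨h5, ?_⟩
          by_contra h6
          have h7 : f / v ∈ V := P_div V v0 f0 h6
          apply h2
          refine ⟨?_, h7⟩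
          have e3 : s / v = (s / f) * (f / v) := by field_simp
          rw [e3]; exact mul_mem h5 h7
      obtain ⟨hq, hvf⟩ := h3
      have eF : F / f = 1 - s * (s / f) := by rw [hF]; field_simp
      have hFhV : F / f ∈ V := by
        rw [eF]; exact sub_mem (one_mem _) (mul_mem hs hq)
      by_cases hFh : V.valuation (F / f) = 1
      · -- `Fh` is a unit
        have h4 : f / F ∈ V := by
          have := P_eq_inv V hFh
          rwa [inv_div] at this
        have e4 : z1 / f = -(F / f + v * ((s / f) ^ 2 * f)) := by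
          rw [hz1]; field_simp; ring
        have hfV : f ∈ V := by rw [hf]; exact sub_mem (pow_mem hy 3) (one_mem _)
        have h5 : V.valuation (z1 / f) = 1 := by
          rw [e4, Valuation.map_neg, Valuation.map_add_eq_of_lt_left]
          · exact hFh
          · rw [hFh]
            exact P_lt_mul V hv' (mul_mem (pow_mem hq 2) hfV)
        have h6 : f / z1 ∈ V := by
          have := P_eq_inv V h5
          rwa [inv_div] at this
        have hp : P0 / (f * z1) ∈ V := by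
          have e5 : P0 / (f * z1) = -((v / f) * (f / z1)) - y ^ 2 * (s / f) := by
            field_simp
            rw [hP0, hz0, hf]
            ring
          rw [e5]
          exact sub_mem (neg_mem (mul_mem hvf h6)) (mul_mem (pow_mem hy 2) hq)
        by_cases hC : P0 / (s * z1) ∈ V
        · right; right; right; right; right; right; right; right; left
          exact ⟨hy, hC, hq, h4⟩
        have h7 : s * z1 / P0 ∈ V := P_div V P00 (by positivity) hC
        have h8 : y * s * z1 / P0 ∈ V := by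
          have e5 : y * s * z1 / P0 = y * (s * z1 / P0) := by field_simp
          rw [e5]; exact mul_mem hy h7
        have h9 : y * P0 / (f * z1) ∈ V := by
          have e5 : y * P0 / (f * z1) = y * (P0 / (f * z1)) := by field_simp
          rw [e5]; exact mul_mem hy hp
        rcases P_end V s y f F z1 P0 s0 y0 f0 z10 P00 h9 hp h8 h7 h4 with h | h
        · right; right; right; right; right; right; left; exact h
        · right; right; right; right; right; right; right; left; exact h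
      · -- `s` is a unit
        have h4 : V.valuation (F / f) < 1 :=
          lt_of_le_of_ne ((V.valuation_le_one_iff _).mpr hFhV) hFh
        have h5 : V.valuation (s * (s / f)) = 1 := by
          have e5 : s * (s / f) = 1 - F / f := by rw [eF]; ring
          rw [e5]
          exact P_unit_one_sub V h4
        have h6 : V.valuation s = 1 := by
          rw [map_mul] at h5
          have h7 := (V.valuation_le_one_iff _).mpr hs
          have h8 := (V.valuation_le_one_iff _).mpr hq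
          refine le_antisymm h7 ?_
          calc (1 : V.ValueGroup) = V.valuation s * V.valuation (s / f) := h5.symm
            _ ≤ V.valuation s * 1 := mul_le_mul_right h8 _
            _ = V.valuation s := mul_one _
        have h7 := P_eq_inv V h6
        left
        refine ⟨hy, hs, ?_, ?_⟩
        · rw [div_eq_mul_inv, hf]
          exact mul_mem (sub_mem (pow_mem hy 3) (one_mem _)) h7
        · rw [div_eq_mul_inv]
          exact mul_mem hvV h7
    · -- `s ∈ V`, `y ∉ V`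
      have hX : V.valuation (1 / y) < 1 := by
        apply P_lt_of_inv_notMem
        rwa [one_div, inv_inv]
      have hY : V.valuation (s / y) < 1 := by
        have e : s / y = (1 / y) * s := by field_simp
        rw [e]; exact P_lt_mul V hX hs
      exact Or.inr (Or.inr (Or.inr (Or.inr (Or.inr (caseY hX hY)))))
  · have hX1 : V.valuation (1 / s) < 1 := by
      apply P_lt_of_inv_notMem
      rwa [one_div, inv_inv]
    have hX1V := P_lt_mem V hX1
    by_cases hZ : y / s ∈ V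
    · have e1 : dd / s ^ 3 = 1 - (1 / s) * ((1 / s) * (y / s)) := by
        rw [hdd]; field_simp
      have u1 : V.valuation (dd / s ^ 3) = 1 := by
        rw [e1]
        exact P_unit_one_sub V (P_lt_mul V hX1 (mul_mem hX1V hZ))
      have h1 : s ^ 3 / dd ∈ V := by
        have := P_eq_inv V u1
        rwa [inv_div] at this
      by_cases hz : z0 / s ∈ V
      · right; right; right; left
        exact ⟨hX1V, hZ, hz, h1⟩
      · right; right; right; right; left
        exact ⟨hX1V, hZ, P_div V z00 s0 hz, h1⟩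
    · have hY : V.valuation (s / y) < 1 := by
        apply P_lt_of_inv_notMem
        rwa [inv_div]
      have hX : V.valuation (1 / y) < 1 := by
        have e : 1 / y = (1 / s) * (s / y) := by field_simp
        rw [e]; exact P_lt_mul V hX1 (P_lt_mem V hY)
      exact Or.inr (Or.inr (Or.inr (Or.inr (Or.inr (caseY hX hY)))))

end

theorem exists_chart_le (k : Type u) [Field k] [IsAlgClosed k] [CharZero k]
    (V : ValuationSubring (KK k))
    (hV : ∀ r : k, algebraMap k (KK k) r ∈ V) : ∃ c : Ch, ∀ x ∈ chart k c, x ∈ V := by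
  have key : ∀ c : Ch, (∀ x ∈ gens k c, x ∈ V) → ∃ c : Ch, ∀ x ∈ chart k c, x ∈ V := by
    intro c hc
    refine ⟨c, ?_⟩
    let B : Subalgebra k (KK k) := { V.toSubring with algebraMap_mem' := hV }
    have : chart k c ≤ B := Algebra.adjoin_le hc
    exact this
  have := P_core V (s k) (y k) (v k) (fb k) (F k) (z1 k) (z0 k) (P0 k) (dd k) rfl rfl rfl rfl rfl
    rfl (s_ne k) (y_ne k) (v_ne k) (fb_ne k) (F_ne k) (z1_ne k) (z0_ne k) (P0_ne k) (dd_ne k)
  rcases this with h | h | h | h | h | h | h | h | h | h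
  · apply key .S; rintro x (rfl | rfl | rfl | rfl); exacts [h.1, h.2.1, h.2.2.1, h.2.2.2]
  · apply key .V; rintro x (rfl | rfl | rfl | rfl); exacts [h.1, h.2.1, h.2.2.1, h.2.2.2]
  · apply key .W; rintro x (rfl | rfl | rfl); exacts [h.1, h.2.1, h.2.2]
  · apply key .Pa; rintro x (rfl | rfl | rfl | rfl); exacts [h.1, h.2.1, h.2.2.1, h.2.2.2]
  · apply key .Pb; rintro x (rfl | rfl | rfl | rfl); exacts [h.1, h.2.1, h.2.2.1, h.2.2.2]
  · apply key .Q; rintro x (rfl | rfl | rfl | rfl); exacts [h.1, h.2.1, h.2.2.1, h.2.2.2]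
  · apply key .A; rintro x (rfl | rfl | rfl | rfl); exacts [h.1, h.2.1, h.2.2.1, h.2.2.2]
  · apply key .B; rintro x (rfl | rfl | rfl | rfl); exacts [h.1, h.2.1, h.2.2.1, h.2.2.2]
  · apply key .C; rintro x (rfl | rfl | rfl | rfl); exacts [h.1, h.2.1, h.2.2.1, h.2.2.2]
  · apply key .D; rintro x (rfl | rfl | rfl | rfl); exacts [h.1, h.2.1, h.2.2.1, h.2.2.2]

end Helper50.D71
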